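import Pool.Agent.Helper73.SM.Goals

/-!
# Packet KB of project SM (MP_c307ca_nt)
-/

set_option autoImplicit false

namespace Pool.Agent.Helper6.SM

open Pool.Agent.Helper73.SM

theorem goalKB : Pool.Agent.Helper73.SM.StmtKB := by
  intro ξ δ c₀ t R m M lam H hξ hδ0 hδ1 hc0 hirr ht2 htH hR hRδ hct hm1 hm2 hM0 hM3 hlam0 hlam1
    n k z hn1 hn2 hz hk1 hkz hkl
  have ht0 : (0 : ℝ) < t := by linarith
  have hH0 : (0 : ℝ) < (H : ℝ) := by rw [← htH]; positivity
  have hH1 : (1 : ℝ) ≤ (H : ℝ) := by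
    rw [← htH]; exact one_le_pow₀ (by linarith)
  have hk0 : (1 : ℝ) ≤ (k : ℝ) := by exact_mod_cast hk1
  have hm0 : (0 : ℝ) < m := by linarith
  have hn0 : (1 : ℝ) ≤ (n : ℝ) := by exact_mod_cast hn1
  have ht2' : (1 : ℝ) ≤ t ^ 2 := one_le_pow₀ (by linarith)
  by_cases h0 : z.1 = 0
  · have hz2 : IsUnit z.2 := by
      rw [h0] at hz
      exact isCoprime_zero_left.mp hz
    have hab : |(z.2 : ℝ)| = 1 := by
      rcases Int.isUnit_iff.mp hz2 with h | h <;> rw [h] <;> norm_num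
    have hl : |lf ξ z| = 1 := by
      unfold lf
      rw [h0]
      simpa using hab
    rw [hl, mul_one] at hkl
    have h1 : 2 * lam * M / m ≤ 6 * H := by
      rw [div_le_iff₀ hm0]
      have : 2 * lam * M ≤ 2 * 1 * (3 * H) := by
        apply mul_le_mul _ hM3 hM0.le (by norm_num)
        linarith
      nlinarith
    nlinarith
  · have ha1 : (1 : ℝ) ≤ |(z.1 : ℝ)| := by
      have : (1 : ℤ) ≤ |z.1| := Int.one_le_abs h0
      exact_mod_cast this
    set a : ℝ := |(z.1 : ℝ)| with ha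
    have hir := hirr z.1 z.2 h0
    rw [← ha] at hir
    have hLdef : |(z.1 : ℝ) * ξ + (z.2 : ℝ)| = |lf ξ z| := rfl
    rw [hLdef] at hir
    set L : ℝ := |lf ξ z| with hL
    have hL0 : 0 ≤ L := abs_nonneg _
    set X : ℝ := 8 * m * n / M with hX
    set Δ : ℝ := 2 * lam * M / m with hΔ
    have hka1 : (1 : ℝ) ≤ k * a := by nlinarith
    have hX1 : 1 ≤ X := le_trans hka1 hkz
    have hX0 : 0 < X := by linarith
    have hΔ0 : 0 ≤ Δ := by positivity
    -- main product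
    have e1 : c₀ * (k * (k : ℝ) ^ (1 + δ)) ≤ Δ * X ^ (1 + δ) := by
      have hk1δ : (0 : ℝ) ≤ k * (k : ℝ) ^ (1 + δ) := by positivity
      calc c₀ * (k * (k : ℝ) ^ (1 + δ)) ≤ (L * a ^ (1 + δ)) * (k * (k : ℝ) ^ (1 + δ)) :=
            mul_le_mul_of_nonneg_right hir hk1δ
        _ = (k * L) * ((k * a) ^ (1 + δ)) := by
            rw [Real.mul_rpow (by linarith) (by linarith)]; ring
        _ ≤ Δ * X ^ (1 + δ) := by
            apply mul_le_mul hkl _ (by positivity) hΔ0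
            exact Real.rpow_le_rpow (by linarith) hkz (by linarith)
    have e2 : Δ * X ^ (1 + δ) = (Δ * X) * X ^ δ := by
      rw [Real.rpow_add hX0, Real.rpow_one]; ring
    have e3 : Δ * X = 16 * lam * n := by
      rw [hΔ, hX]; field_simp; ring
    have e4 : Δ * X ≤ 96 * H ^ 2 := by
      rw [e3]
      have h1 : 16 * lam * n ≤ 16 * 1 * (2 * H * M) := by
        apply mul_le_mul _ hn2 (by linarith) (by norm_num)
        linarith
      have h2 : 2 * (H : ℝ) * M ≤ 2 * H * (3 * H) := by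
        apply mul_le_mul_of_nonneg_left hM3 (by linarith)
      nlinarith
    have e5 : X ≤ (32 * t * H) * R := by
      rw [hX, div_le_iff₀ hM0]
      have h1 : 8 * m * n ≤ 8 * (2 * t * R) * (2 * H * M) := by
        apply mul_le_mul _ hn2 (by linarith) (by positivity)
        linarith
      nlinarith
    have h32 : (1 : ℝ) ≤ 32 * t * H := by nlinarith
    have e6 : (32 * t * H) ^ δ ≤ t := by
      have h1 : (32 * t * H) ^ δ ≤ (32 * t * H) ^ ((1 : ℝ) / 100) :=
        Real.rpow_le_rpow_of_exponent_le h32 hδ1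
      have h2 : 32 * t * H ≤ t ^ (100 : ℕ) := by
        rw [← htH]
        have h3 : (32 : ℝ) ≤ t ^ 5 := by
          calc (32 : ℝ) = 2 ^ 5 := by norm_num
            _ ≤ t ^ 5 := pow_le_pow_left₀ (by norm_num) ht2 5
        have h4 : (1 : ℝ) ≤ t ^ 74 := one_le_pow₀ (by linarith)
        calc 32 * t * t ^ 20 ≤ t ^ 5 * t * t ^ 20 := by gcongr
          _ = t ^ 26 * 1 := by ring
          _ ≤ t ^ 26 * t ^ 74 := by gcongr
          _ = t ^ 100 := by ring
      have h5 : (32 * t * H) ^ ((1 : ℝ) / 100) ≤ (t ^ (100 : ℕ)) ^ ((1 : ℝ) / 100) :=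
        Real.rpow_le_rpow (by linarith) h2 (by norm_num)
      have h6 : (t ^ (100 : ℕ)) ^ ((1 : ℝ) / 100) = t := by
        rw [← Real.rpow_natCast, ← Real.rpow_mul ht0.le]
        norm_num
      linarith
    have e7 : X ^ δ ≤ t * t := by
      calc X ^ δ ≤ ((32 * t * H) * R) ^ δ := Real.rpow_le_rpow hX0.le e5 hδ0
        _ = (32 * t * H) ^ δ * R ^ δ := Real.mul_rpow (by linarith) (by linarith)
        _ ≤ t * t := mul_le_mul e6 hRδ (by positivity) ht0.le
    have e8 : (k : ℝ) ^ 2 ≤ k * (k : ℝ) ^ (1 + δ) := by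
      have : (k : ℝ) ^ (1 : ℝ) ≤ (k : ℝ) ^ (1 + δ) :=
        Real.rpow_le_rpow_of_exponent_le hk0 (by linarith)
      rw [Real.rpow_one] at this
      nlinarith
    have e9 : c₀ * (k : ℝ) ^ 2 ≤ 96 * H ^ 2 * (t * t) := by
      calc c₀ * (k : ℝ) ^ 2 ≤ c₀ * (k * (k : ℝ) ^ (1 + δ)) := mul_le_mul_of_nonneg_left e8 hc0.le
        _ ≤ (Δ * X) * X ^ δ := by rw [← e2]; exact e1
        _ ≤ 96 * H ^ 2 * (t * t) := by
            apply mul_le_mul e4 e7 (by positivity) (by positivity)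
    have e10 : (k : ℝ) ^ 2 ≤ 96 * H ^ 2 * t ^ 3 := by
      calc (k : ℝ) ^ 2 = 1 * (k : ℝ) ^ 2 := by ring
        _ ≤ (c₀ * t) * (k : ℝ) ^ 2 := mul_le_mul_of_nonneg_right hct (by positivity)
        _ = t * (c₀ * (k : ℝ) ^ 2) := by ring
        _ ≤ t * (96 * H ^ 2 * (t * t)) := mul_le_mul_of_nonneg_left e9 ht0.le
        _ = 96 * H ^ 2 * t ^ 3 := by ring
    have e11 : (k : ℝ) ^ 2 ≤ (10 * H * t ^ 2) ^ 2 := by
      have h1 : t ^ 3 ≤ t ^ 4 := by
        have : t ^ 4 = t ^ 3 * t := by ring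
        rw [this]
        have h3 : 0 ≤ t ^ 3 := by positivity
        nlinarith
      have h2 : (0 : ℝ) ≤ (H : ℝ) ^ 2 := by positivity
      calc (k : ℝ) ^ 2 ≤ 96 * H ^ 2 * t ^ 3 := e10
        _ ≤ 96 * H ^ 2 * t ^ 4 := by gcongr
        _ ≤ 100 * H ^ 2 * t ^ 4 := by
            have : 0 ≤ (H : ℝ) ^ 2 * t ^ 4 := by positivity
            linarith
        _ = (10 * H * t ^ 2) ^ 2 := by ring
    exact abs_le_of_sq_le_sq' e11 (by positivity) |>.2

end Pool.Agent.Helper6.SM
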