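import Pool.Agent.Helper73.SM.Goals

/-!
# Packet SAA of project SM (MP_c307ca_nt)
-/

set_option autoImplicit false

namespace Pool.Agent.Helper6.SM

open Finset Pool.Agent.Helper73.SM

theorem vand (r s : ℝ) (k : ℕ) :
    Ring.choose (r + s) k = ∑ i ∈ range (k + 1), Ring.choose r i * Ring.choose s (k - i) := by
  rw [Ring.add_choose_eq k (Commute.all r s)]
  exact Finset.Nat.sum_antidiagonal_eq_sum_range_succ
    (fun i j => Ring.choose r i * Ring.choose s j) k

theorem neg_choose (x : ℝ) (k : ℕ) :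
    Ring.choose x k = (-1) ^ k * Ring.choose ((k : ℝ) - 1 - x) k := by
  have h := Ring.choose_neg (-x) k
  rw [neg_neg] at h
  rw [h, Units.smul_def, zsmul_eq_mul, Int.cast_negOnePow_natCast]
  congr 2
  ring

/-- finite differences of `x ↦ (x choose n)` at `2 n` -/
theorem findiff (n j : ℕ) (hj : j ≤ 2 * n) :
    ∑ l ∈ range (n + 1), (-1 : ℝ) ^ l * (j.choose l : ℝ) * ((2 * n - l).choose n : ℝ)
      = ((2 * n - j).choose n : ℝ) := by
  have h1 : ∀ l ∈ range (n + 1), (-1 : ℝ) ^ l * (j.choose l : ℝ) * ((2 * n - l).choose n : ℝ)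
      = (-1 : ℝ) ^ n * (Ring.choose (j : ℝ) l * Ring.choose (-(n : ℝ) - 1) (n - l)) := by
    intro l hl
    rw [mem_range] at hl
    have hln : l ≤ n := by omega
    have e1 : ((2 * n - l).choose n : ℝ) = ((2 * n - l).choose (n - l) : ℝ) := by
      have : (2 * n - l).choose n = (2 * n - l).choose (n - l) := by
        rw [← Nat.choose_symm (show n ≤ 2 * n - l by omega)]
        congr 1; omega
      exact_mod_cast this
    have e2 : ((2 * n - l).choose (n - l) : ℝ) = Ring.choose (((2 * n - l : ℕ)) : ℝ) (n - l) := by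
      rw [Ring.choose_natCast]
    rw [e1, e2, neg_choose (((2 * n - l : ℕ)) : ℝ) (n - l), Ring.choose_natCast]
    have e3 : (((n - l : ℕ) : ℝ) - 1 - ((2 * n - l : ℕ) : ℝ)) = -(n : ℝ) - 1 := by
      rw [Nat.cast_sub hln, Nat.cast_sub (by omega)]
      push_cast; ring
    rw [e3]
    have e4 : (-1 : ℝ) ^ n = (-1) ^ l * (-1) ^ (n - l) := by
      rw [← pow_add]; congr 1; omega
    rw [e4]; ring
  rw [sum_congr rfl h1, ← mul_sum, ← vand]
  have e5 := neg_choose ((((2 * n - j : ℕ)) : ℝ)) n
  rw [Ring.choose_natCast] at e5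
  rw [e5]
  congr 2
  rw [Nat.cast_sub hj]
  push_cast; ring

theorem inner_sum (x y : ℝ) (l m : ℕ) :
    ∑ j ∈ range (m + 1), (j.choose l : ℝ) * Ring.choose x j * Ring.choose y (m - j)
      = if l ≤ m then Ring.choose x l * Ring.choose (x - l + y) (m - l) else 0 := by
  split_ifs with h
  · have hm : m + 1 = l + (m - l + 1) := by omega
    rw [hm, sum_range_add]
    have h0 : ∑ j ∈ range l, (j.choose l : ℝ) * Ring.choose x j * Ring.choose y (m - j) = 0 := by
      apply sum_eq_zero
      intro j hj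
      rw [mem_range] at hj
      rw [Nat.choose_eq_zero_of_lt hj]; simp
    rw [h0, zero_add, vand, mul_sum]
    apply sum_congr rfl
    intro i _
    have h1 := Ring.choose_smul_choose x (show l ≤ l + i by omega)
    rw [nsmul_eq_mul, show l + i - l = i by omega] at h1
    rw [h1, show m - (l + i) = m - l - i by omega]
    ring
  · apply sum_eq_zero
    intro j hj
    rw [mem_range] at hj
    rw [Nat.choose_eq_zero_of_lt (by omega)]; simp

theorem nat_id (n m l : ℕ) (hm : m ≤ n) (hl : l ≤ m) :
    (2 * n - l).choose n * (n - l).choose (m - l) =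
      (2 * n - m).choose n * (2 * n - l).choose (m - l) := by
  have e1 : (2 * n - l).choose n = (2 * n - l).choose (n - l) := by
    rw [← Nat.choose_symm (show n ≤ 2 * n - l by omega)]
    congr 1; omega
  have e2 : (2 * n - m).choose n = (2 * n - m).choose (n - m) := by
    rw [← Nat.choose_symm (show n ≤ 2 * n - m by omega)]
    congr 1; omega
  have e3 := Nat.choose_mul (n := 2 * n - l) (show m - l ≤ n - l by omega)
  rw [e1, e2, e3, show 2 * n - l - (m - l) = 2 * n - m by omega,
    show n - l - (m - l) = n - m by omega, mul_comm]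

theorem goalSAA : Pool.Agent.Helper73.SM.StmtSAA := by
  intro ν n m hm
  -- the sum over `j ≤ m`
  have hS : ∑ j ∈ range (n + 1), (if j ≤ m then
      Ring.choose ((n : ℝ) - ν) j * ((2 * n - j).choose n : ℝ) * Ring.choose ν (m - j) else 0)
      = ∑ j ∈ range (m + 1),
        Ring.choose ((n : ℝ) - ν) j * ((2 * n - j).choose n : ℝ) * Ring.choose ν (m - j) := by
    rw [← sum_filter]
    apply sum_subset_zero_on_sdiff
    · intro j hj
      rw [mem_filter] at hj
      rw [mem_range]; omega
    · intro j hj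
      rw [mem_sdiff, mem_filter, mem_range, mem_range] at hj
      have h1 : 2 * n - j < n := by
        by_contra hcon
        push Not at hcon
        apply hj.2
        have := hj.1
        refine ⟨?_, by omega⟩
        omega
      rw [Nat.choose_eq_zero_of_lt h1]; simp
    · intro j _; rfl
  rw [hS]
  have h1 : ∀ j ∈ range (m + 1),
      Ring.choose ((n : ℝ) - ν) j * ((2 * n - j).choose n : ℝ) * Ring.choose ν (m - j) =
      ∑ l ∈ range (n + 1), ((-1 : ℝ) ^ l * ((2 * n - l).choose n : ℝ)) *
        ((j.choose l : ℝ) * Ring.choose ((n : ℝ) - ν) j * Ring.choose ν (m - j)) := by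
    intro j hj
    rw [mem_range] at hj
    rw [← findiff n j (by omega), mul_sum, sum_mul]
    apply sum_congr rfl
    intro l _
    ring
  rw [sum_congr rfl h1, sum_comm]
  have h2 : ∀ l ∈ range (n + 1), ∑ j ∈ range (m + 1), ((-1 : ℝ) ^ l * ((2 * n - l).choose n : ℝ)) *
        ((j.choose l : ℝ) * Ring.choose ((n : ℝ) - ν) j * Ring.choose ν (m - j)) =
      if l ≤ m then ((-1 : ℝ) ^ l * ((2 * n - l).choose n : ℝ)) *
        (Ring.choose ((n : ℝ) - ν) l * ((n - l).choose (m - l) : ℝ)) else 0 := by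
    intro l hl
    rw [mem_range] at hl
    rw [← mul_sum, inner_sum]
    split_ifs with h
    · have e1 : (n : ℝ) - ν - l + ν = ((n - l : ℕ) : ℝ) := by
        rw [Nat.cast_sub (by omega)]; ring
      rw [e1, Ring.choose_natCast]
    · rw [mul_zero]
  rw [sum_congr rfl h2]
  split_ifs with hmn
  · -- `m ≤ n`
    rw [← sum_filter]
    have hf : (range (n + 1)).filter (fun l => l ≤ m) = range (m + 1) := by
      ext l
      rw [mem_filter, mem_range, mem_range]
      omega
    rw [hf]
    have h3 : ∀ l ∈ range (m + 1), ((-1 : ℝ) ^ l * ((2 * n - l).choose n : ℝ)) *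
        (Ring.choose ((n : ℝ) - ν) l * ((n - l).choose (m - l) : ℝ)) =
        (((2 * n - m).choose n : ℝ) * (-1) ^ m) *
          (Ring.choose ((n : ℝ) - ν) l * Ring.choose ((m : ℝ) - 2 * n - 1) (m - l)) := by
      intro l hl
      rw [mem_range] at hl
      have e1 : ((2 * n - l).choose n : ℝ) * ((n - l).choose (m - l) : ℝ) =
          ((2 * n - m).choose n : ℝ) * ((2 * n - l).choose (m - l) : ℝ) := by
        exact_mod_cast nat_id n m l hmn (by omega)
      have e2 : ((2 * n - l).choose (m - l) : ℝ) =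
          (-1) ^ (m - l) * Ring.choose ((m : ℝ) - 2 * n - 1) (m - l) := by
        have := neg_choose ((((2 * n - l : ℕ)) : ℝ)) (m - l)
        rw [Ring.choose_natCast] at this
        rw [this]
        congr 2
        rw [Nat.cast_sub (by omega), Nat.cast_sub (by omega)]
        push_cast; ring
      have e4 : (-1 : ℝ) ^ m = (-1) ^ l * (-1) ^ (m - l) := by
        rw [← pow_add]; congr 1; omega
      calc ((-1 : ℝ) ^ l * ((2 * n - l).choose n : ℝ)) *
          (Ring.choose ((n : ℝ) - ν) l * ((n - l).choose (m - l) : ℝ))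
          = (-1 : ℝ) ^ l * Ring.choose ((n : ℝ) - ν) l *
            (((2 * n - l).choose n : ℝ) * ((n - l).choose (m - l) : ℝ)) := by ring
        _ = _ := by rw [e1, e2, e4]; ring
    rw [sum_congr rfl h3, ← mul_sum, ← vand]
    have e5 := neg_choose ((n : ℝ) - ν + ((m : ℝ) - 2 * n - 1)) m
    rw [e5]
    have e6 : (m : ℝ) - 1 - ((n : ℝ) - ν + ((m : ℝ) - 2 * n - 1)) = (n : ℝ) + ν := by ring
    rw [e6]
    have e7 : (-1 : ℝ) ^ m * (-1) ^ m = 1 := by
      rw [← mul_pow]; norm_num
    calc ((2 * n - m).choose n : ℝ) * (-1) ^ m * ((-1) ^ m * Ring.choose ((n : ℝ) + ν) m)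
        = ((-1 : ℝ) ^ m * (-1) ^ m) * (((2 * n - m).choose n : ℝ) * Ring.choose ((n : ℝ) + ν) m) := by
          ring
      _ = _ := by rw [e7]; ring
  · apply sum_eq_zero
    intro l hl
    rw [mem_range] at hl
    rw [Nat.choose_eq_zero_of_lt (show n - l < m - l by omega)]
    simp

end Pool.Agent.Helper6.SM
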