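import Pool.Agent.Helper73.SM.Goals

/-!
# Packet SI of project SM (MP_c307ca_nt)
-/

set_option autoImplicit false

namespace Pool.Agent.Helper6.SM

open Finset Pool.Agent.Helper73.SM

theorem si_step (ε : ℝ) (hε : 0 < ε) (x : ℝ) (hx : 1 < x) :
    x ^ (-(1 + ε)) ≤ (1 / ε) * ((x - 1) ^ (-ε) - x ^ (-ε)) := by
  have hx0 : 0 < x := by linarith
  have hu : 0 < 1 - 1 / x := by
    rw [sub_pos, div_lt_one hx0]; exact hx
  have h1 : (x - 1) = x * (1 - 1 / x) := by field_simp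
  have h2 : 1 + ε / x ≤ (1 - 1 / x) ^ (-ε) := by
    rw [Real.rpow_def_of_pos hu]
    have hl : Real.log (1 - 1 / x) ≤ (1 - 1 / x) - 1 := Real.log_le_sub_one_of_pos hu
    have h3 : ε / x ≤ Real.log (1 - 1 / x) * (-ε) := by
      have : Real.log (1 - 1 / x) ≤ -(1 / x) := by linarith
      have h4 : ε * (1 / x) ≤ ε * (-Real.log (1 - 1 / x)) :=
        mul_le_mul_of_nonneg_left (by linarith) hε.le
      have h5 : ε * (1 / x) = ε / x := by ring
      linarith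
    have h6 := Real.add_one_le_exp (Real.log (1 - 1 / x) * (-ε))
    linarith
  have h7 : (x - 1) ^ (-ε) = x ^ (-ε) * (1 - 1 / x) ^ (-ε) := by
    rw [h1, Real.mul_rpow hx0.le hu.le]
  have h8 : x ^ (-(1 + ε)) = x ^ (-ε) * (1 / x) := by
    rw [show -(1 + ε) = -ε + (-1) by ring, Real.rpow_add hx0, Real.rpow_neg_one]
    ring
  have h9 : 0 < x ^ (-ε) := Real.rpow_pos_of_pos hx0 _
  rw [h7, h8]
  have h10 : x ^ (-ε) * (ε / x) ≤ x ^ (-ε) * (1 - 1 / x) ^ (-ε) - x ^ (-ε) := by nlinarith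
  have h11 : x ^ (-ε) * (1 / x) = (1 / ε) * (x ^ (-ε) * (ε / x)) := by field_simp
  rw [h11]
  exact mul_le_mul_of_nonneg_left h10 (by positivity)

theorem si_sum (ε : ℝ) (hε : 0 < ε) (i₀ : ℕ) (h2 : 2 ≤ i₀) (J : ℕ) :
    ∑ j ∈ range J, ((i₀ + j : ℕ) : ℝ) ^ (-(1 + ε)) ≤
      (1 / ε) * (((i₀ : ℝ) - 1) ^ (-ε) - (((i₀ + J : ℕ) : ℝ) - 1) ^ (-ε)) := by
  induction J with
  | zero => simp
  | succ J ih =>
    rw [sum_range_succ]
    have hx : (1 : ℝ) < ((i₀ + J : ℕ) : ℝ) := by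
      have : 2 ≤ i₀ + J := by omega
      have h3 : (2 : ℝ) ≤ ((i₀ + J : ℕ) : ℝ) := by exact_mod_cast this
      linarith
    have h := si_step ε hε _ hx
    have h4 : ((i₀ + (J + 1) : ℕ) : ℝ) - 1 = ((i₀ + J : ℕ) : ℝ) := by push_cast; ring
    rw [h4]
    have : (1 / ε) * (((i₀ : ℝ) - 1) ^ (-ε) - ((i₀ + J : ℕ) : ℝ) ^ (-ε)) =
      (1 / ε) * (((i₀ : ℝ) - 1) ^ (-ε) - (((i₀ + J : ℕ) : ℝ) - 1) ^ (-ε)) +
      (1 / ε) * ((((i₀ + J : ℕ) : ℝ) - 1) ^ (-ε) - ((i₀ + J : ℕ) : ℝ) ^ (-ε)) := by ring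
    rw [this]
    linarith

theorem sz_nonneg (ε Q₁ : ℝ) (hQ : 4 ≤ Q₁) (i : ℕ) : 0 ≤ sz ε Q₁ i := by
  unfold sz
  apply mul_nonneg
  · exact le_min (by norm_num) (by positivity)
  · apply Real.rpow_nonneg
    apply div_nonneg (by norm_num)
    apply Real.log_nonneg
    exact le_trans (by linarith) (le_max_right _ _)

theorem goalSI : Pool.Agent.Helper73.SM.StmtSI := by
  intro ε hε
  have hl2 : 0 < Real.log 2 := Real.log_pos (by norm_num)
  refine ⟨16 / 3 * 2 ^ (1 + ε) + (2 / Real.log 2) ^ (1 + ε) * ((2 * Real.log 2) ^ ε / ε),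
    by positivity, ?_⟩
  intro Q₁ hQ I
  have hQ0 : 0 < Q₁ := by linarith
  have hlQ : 2 * Real.log 2 ≤ Real.log Q₁ := by
    have : Real.log 4 = 2 * Real.log 2 := by
      rw [show (4 : ℝ) = 2 ^ 2 by norm_num, Real.log_pow]; norm_num
    rw [← this]
    exact Real.log_le_log (by norm_num) hQ
  have hl2' : (0.69 : ℝ) < Real.log 2 := by
    have := Real.log_two_gt_d9; linarith
  have hlQ1 : 1 ≤ Real.log Q₁ := by linarith
  have hlQ0 : 0 < Real.log Q₁ := by linarith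
  set i₀ : ℕ := ⌈Real.log Q₁ / Real.log 2⌉₊ with hi0
  have hi1 : Real.log Q₁ / Real.log 2 ≤ (i₀ : ℝ) := Nat.le_ceil _
  have hi2 : (i₀ : ℝ) < Real.log Q₁ / Real.log 2 + 1 :=
    Nat.ceil_lt_add_one (div_nonneg hlQ0.le hl2.le)
  have hi3 : (2 : ℝ) ≤ Real.log Q₁ / Real.log 2 := by
    rw [le_div_iff₀ hl2]; exact hlQ
  have hi4 : 2 ≤ i₀ := by
    have : (2 : ℝ) ≤ (i₀ : ℝ) := by linarith
    exact_mod_cast this
  -- split
  have hsplit : ∑ i ∈ range I, sz ε Q₁ i ≤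
      ∑ i ∈ range i₀, sz ε Q₁ i + ∑ j ∈ range I, sz ε Q₁ (i₀ + j) := by
    rw [← sum_range_add]
    apply sum_le_sum_of_subset_of_nonneg
    · intro x hx
      rw [mem_range] at hx ⊢
      omega
    · intro x _ _
      exact sz_nonneg ε Q₁ hQ x
  -- first part
  have hpart1 : ∑ i ∈ range i₀, sz ε Q₁ i ≤ (16 / 3 * 2 ^ (1 + ε)) / Real.log Q₁ ^ ε := by
    have hterm : ∀ i ∈ range i₀, sz ε Q₁ i ≤
        (4 : ℝ) ^ i * (4 / Q₁ ^ 2 * (2 / Real.log Q₁) ^ (1 + ε)) := by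
      intro i _
      unfold sz
      have h1 : min 1 (((2 : ℝ) ^ (i + 1) / Q₁) ^ 2) ≤ (4 : ℝ) ^ i * (4 / Q₁ ^ 2) := by
        refine le_trans (min_le_right _ _) (le_of_eq ?_)
        rw [div_pow, ← pow_mul, mul_comm (i + 1) 2, pow_mul]
        norm_num
        rw [pow_succ]
        ring
      have h2 : (2 / Real.log (max ((2 : ℝ) ^ i) Q₁)) ^ (1 + ε) ≤ (2 / Real.log Q₁) ^ (1 + ε) := by
        apply Real.rpow_le_rpow
        · apply div_nonneg (by norm_num)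
          apply Real.log_nonneg
          exact le_trans (by linarith) (le_max_right _ _)
        · apply div_le_div_of_nonneg_left (by norm_num) hlQ0
          exact Real.log_le_log hQ0 (le_max_right _ _)
        · linarith
      calc min 1 (((2 : ℝ) ^ (i + 1) / Q₁) ^ 2) *
            (2 / Real.log (max ((2 : ℝ) ^ i) Q₁)) ^ (1 + ε)
          ≤ ((4 : ℝ) ^ i * (4 / Q₁ ^ 2)) * (2 / Real.log Q₁) ^ (1 + ε) := by
            apply mul_le_mul h1 h2 _ (by positivity)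
            apply Real.rpow_nonneg
            apply div_nonneg (by norm_num)
            apply Real.log_nonneg
            exact le_trans (by linarith) (le_max_right _ _)
        _ = _ := by ring
    have hgeo : ∑ i ∈ range i₀, (4 : ℝ) ^ i ≤ 4 / 3 * Q₁ ^ 2 := by
      rw [geom_sum_eq (by norm_num)]
      have h1 : (2 : ℝ) ^ i₀ ≤ 2 * Q₁ := by
        have h2 : (2 : ℝ) ^ i₀ = Real.exp (Real.log 2 * i₀) := by
          rw [← Real.rpow_natCast, Real.rpow_def_of_pos (by norm_num)]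
        have h3 : 2 * Q₁ = Real.exp (Real.log 2 + Real.log Q₁) := by
          rw [Real.exp_add, Real.exp_log (by norm_num), Real.exp_log hQ0]
        rw [h2, h3]
        apply Real.exp_le_exp.mpr
        have h4 : Real.log 2 * i₀ ≤ Real.log 2 * (Real.log Q₁ / Real.log 2 + 1) :=
          mul_le_mul_of_nonneg_left hi2.le hl2.le
        have h5 : Real.log 2 * (Real.log Q₁ / Real.log 2 + 1) = Real.log 2 + Real.log Q₁ := by
          field_simp; ring
        linarith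
      have h6 : (4 : ℝ) ^ i₀ ≤ 4 * Q₁ ^ 2 := by
        have h7 : (4 : ℝ) ^ i₀ = ((2 : ℝ) ^ i₀) ^ 2 := by
          rw [← pow_mul, mul_comm, pow_mul]; norm_num
        rw [h7]
        calc ((2 : ℝ) ^ i₀) ^ 2 ≤ (2 * Q₁) ^ 2 := pow_le_pow_left₀ (by positivity) h1 2
          _ = 4 * Q₁ ^ 2 := by ring
      linarith
    calc ∑ i ∈ range i₀, sz ε Q₁ i
        ≤ ∑ i ∈ range i₀, (4 : ℝ) ^ i * (4 / Q₁ ^ 2 * (2 / Real.log Q₁) ^ (1 + ε)) :=
          sum_le_sum hterm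
      _ = (∑ i ∈ range i₀, (4 : ℝ) ^ i) * (4 / Q₁ ^ 2 * (2 / Real.log Q₁) ^ (1 + ε)) := by
          rw [sum_mul]
      _ ≤ (4 / 3 * Q₁ ^ 2) * (4 / Q₁ ^ 2 * (2 / Real.log Q₁) ^ (1 + ε)) :=
          mul_le_mul_of_nonneg_right hgeo (by positivity)
      _ = 16 / 3 * (2 / Real.log Q₁) ^ (1 + ε) := by field_simp; ring
      _ = 16 / 3 * 2 ^ (1 + ε) / Real.log Q₁ ^ (1 + ε) := by
          rw [Real.div_rpow (by norm_num) hlQ0.le]; ring
      _ ≤ (16 / 3 * 2 ^ (1 + ε)) / Real.log Q₁ ^ ε := by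
          apply div_le_div_of_nonneg_left (by positivity) (Real.rpow_pos_of_pos hlQ0 _)
          exact Real.rpow_le_rpow_of_exponent_le hlQ1 (by linarith)
  -- second part
  have hpart2 : ∑ j ∈ range I, sz ε Q₁ (i₀ + j) ≤
      ((2 / Real.log 2) ^ (1 + ε) * ((2 * Real.log 2) ^ ε / ε)) / Real.log Q₁ ^ ε := by
    have hterm : ∀ j ∈ range I, sz ε Q₁ (i₀ + j) ≤
        (2 / Real.log 2) ^ (1 + ε) * ((i₀ + j : ℕ) : ℝ) ^ (-(1 + ε)) := by
      intro j _
      have hij : (2 : ℝ) ≤ ((i₀ + j : ℕ) : ℝ) := by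
        have : 2 ≤ i₀ + j := by omega
        exact_mod_cast this
      have hij0 : (0 : ℝ) < ((i₀ + j : ℕ) : ℝ) := by linarith
      have hlog : Real.log ((2 : ℝ) ^ (i₀ + j)) = ((i₀ + j : ℕ) : ℝ) * Real.log 2 := by
        rw [Real.log_pow]
      have hlogpos : 0 < Real.log ((2 : ℝ) ^ (i₀ + j)) := by rw [hlog]; positivity
      unfold sz
      have h1 : min 1 (((2 : ℝ) ^ (i₀ + j + 1) / Q₁) ^ 2) ≤ 1 := min_le_left _ _
      have h2 : (2 / Real.log (max ((2 : ℝ) ^ (i₀ + j)) Q₁)) ^ (1 + ε) ≤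
          (2 / Real.log ((2 : ℝ) ^ (i₀ + j))) ^ (1 + ε) := by
        apply Real.rpow_le_rpow
        · apply div_nonneg (by norm_num)
          apply Real.log_nonneg
          exact le_trans (by linarith) (le_max_right _ _)
        · apply div_le_div_of_nonneg_left (by norm_num) hlogpos
          exact Real.log_le_log (by positivity) (le_max_left _ _)
        · linarith
      have h3 : (2 / Real.log ((2 : ℝ) ^ (i₀ + j))) ^ (1 + ε) =
          (2 / Real.log 2) ^ (1 + ε) * ((i₀ + j : ℕ) : ℝ) ^ (-(1 + ε)) := by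
        rw [hlog, Real.rpow_neg hij0.le, ← Real.inv_rpow hij0.le,
          ← Real.mul_rpow (by positivity) (by positivity)]
        congr 1
        field_simp
      calc _ ≤ 1 * (2 / Real.log ((2 : ℝ) ^ (i₀ + j))) ^ (1 + ε) := by
            apply mul_le_mul h1 h2 _ (by norm_num)
            apply Real.rpow_nonneg
            apply div_nonneg (by norm_num)
            apply Real.log_nonneg
            exact le_trans (by linarith) (le_max_right _ _)
        _ = _ := by rw [one_mul, h3]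
    have hs := si_sum ε hε i₀ hi4 I
    have hneg : 0 ≤ (((i₀ + I : ℕ) : ℝ) - 1) ^ (-ε) := by
      apply Real.rpow_nonneg
      have : 2 ≤ i₀ + I := by omega
      have h3 : (2 : ℝ) ≤ ((i₀ + I : ℕ) : ℝ) := by exact_mod_cast this
      linarith
    have hs' : ∑ j ∈ range I, ((i₀ + j : ℕ) : ℝ) ^ (-(1 + ε)) ≤
        (1 / ε) * ((i₀ : ℝ) - 1) ^ (-ε) := by
      refine le_trans hs ?_
      apply mul_le_mul_of_nonneg_left _ (by positivity)
      linarith
    have hb : ((i₀ : ℝ) - 1) ^ (-ε) ≤ (2 * Real.log 2) ^ ε / Real.log Q₁ ^ ε := by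
      have h1 : Real.log Q₁ / (2 * Real.log 2) ≤ (i₀ : ℝ) - 1 := by
        have : Real.log Q₁ / (2 * Real.log 2) = (Real.log Q₁ / Real.log 2) / 2 := by
          field_simp
        rw [this]; linarith
      have h2 : 0 < Real.log Q₁ / (2 * Real.log 2) := by positivity
      calc ((i₀ : ℝ) - 1) ^ (-ε) ≤ (Real.log Q₁ / (2 * Real.log 2)) ^ (-ε) :=
            Real.rpow_le_rpow_of_nonpos h2 h1 (by linarith)
        _ = (2 * Real.log 2) ^ ε / Real.log Q₁ ^ ε := by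
            rw [Real.rpow_neg h2.le, Real.div_rpow hlQ0.le (by positivity), inv_div]
    calc ∑ j ∈ range I, sz ε Q₁ (i₀ + j)
        ≤ ∑ j ∈ range I, (2 / Real.log 2) ^ (1 + ε) * ((i₀ + j : ℕ) : ℝ) ^ (-(1 + ε)) :=
          sum_le_sum hterm
      _ = (2 / Real.log 2) ^ (1 + ε) * ∑ j ∈ range I, ((i₀ + j : ℕ) : ℝ) ^ (-(1 + ε)) := by
          rw [mul_sum]
      _ ≤ (2 / Real.log 2) ^ (1 + ε) * ((1 / ε) * ((2 * Real.log 2) ^ ε / Real.log Q₁ ^ ε)) := by
          apply mul_le_mul_of_nonneg_left _ (by positivity)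
          exact le_trans hs' (mul_le_mul_of_nonneg_left hb (by positivity))
      _ = _ := by ring
  calc ∑ i ∈ range I, sz ε Q₁ i ≤ _ := hsplit
    _ ≤ (16 / 3 * 2 ^ (1 + ε)) / Real.log Q₁ ^ ε +
        ((2 / Real.log 2) ^ (1 + ε) * ((2 * Real.log 2) ^ ε / ε)) / Real.log Q₁ ^ ε :=
        add_le_add hpart1 hpart2
    _ = _ := by ring

end Pool.Agent.Helper6.SM
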